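import Pool.Agent.Lib.MP_09e206_co.Defs

/-! # Building the branch sets of a rooted clique minor from a system of paths -/

namespace RootedKC

private def AsmRch {V : Type} (G : SimpleGraph V) (S : Set V) (u v : V) : Prop :=
  ∃ hu : u ∈ S, ∃ hv : v ∈ S, (G.induce S).Reachable ⟨u, hu⟩ ⟨v, hv⟩

private theorem asm_trans {V : Type} {G : SimpleGraph V} {S : Set V} {u v w : V}
    (h1 : AsmRch G S u v) (h2 : AsmRch G S v w) : AsmRch G S u w := by
  obtain ⟨hu, hv, h⟩ := h1
  obtain ⟨hv', hw, h'⟩ := h2
  exact ⟨hu, hw, h.trans h'⟩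

private theorem asm_path {V : Type} {G : SimpleGraph V} {S : Set V} (p : ℕ → V) (s : ℕ)
    (hadj : ∀ t < s, G.Adj (p t) (p (t + 1))) (hS : ∀ t ≤ s, p t ∈ S) :
    AsmRch G S (p 0) (p s) := by
  induction s with
  | zero => exact ⟨hS 0 le_rfl, hS 0 le_rfl, SimpleGraph.Reachable.refl _⟩
  | succ s ih =>
    have h1 := ih (fun t ht => hadj t (by omega)) (fun t ht => hS t (by omega))
    have h2 : AsmRch G S (p s) (p (s + 1)) := by
      refine ⟨hS s (by omega), hS (s + 1) le_rfl, ?_⟩
      apply SimpleGraph.Adj.reachable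
      rw [SimpleGraph.induce_adj]
      exact hadj s (by omega)
    exact asm_trans h1 h2

private theorem asm_exists_B {V : Type} {G : SimpleGraph V} {I : Type} (P : PS G I) {m : ℕ}
    (grp : I → Fin m) (src snk : Fin m → Fin m → I) :
    ∃ B : Fin m → Set V, ∀ a, B a = F P grp a ∪
      {v | ∃ b, a < b ∧ ∃ s, Pre P (B b) (src a b) (snk a b) s ∧
        v = P.p (src a b) (snk a b) s} := by
  let T : ∀ a : Fin m, (∀ b : Fin m, b > a → Set V) → Set V := fun a rec =>
    F P grp a ∪ {v | ∃ b, ∃ h : b > a, ∃ s, Pre P (rec b h) (src a b) (snk a b) s ∧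
        v = P.p (src a b) (snk a b) s}
  have wf : WellFounded (fun b a : Fin m => b > a) := wellFounded_gt
  refine ⟨wf.fix T, fun a => ?_⟩
  rw [wf.fix_eq]
  show F P grp a ∪ {v | ∃ b, ∃ _ : b > a, ∃ s, Pre P (wf.fix T b) (src a b) (snk a b) s ∧
        v = P.p (src a b) (snk a b) s} = _
  congr 1
  ext v
  simp only [Set.mem_ofPred_eq, exists_prop, gt_iff_lt]

/-- Building the branch sets: `src a b` and `snk a b` are the ends of the path used between
the groups `a < b`; two paths into `b` with the same end must be disjoint before they reach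
`F b`. -/
theorem assemble {V : Type} {G : SimpleGraph V} {I : Type} (P : PS G I) {m : ℕ}
    (grp : I → Fin m) (hsurj : ∀ a, ∃ i, grp i = a) (src snk : Fin m → Fin m → I)
    (hsrc : ∀ a b, a < b → grp (src a b) = a) (hsnk : ∀ a b, a < b → grp (snk a b) = b)
    (hconf : ∀ a c b, a < b → c < b → a ≠ c → snk a b = snk c b →
      ∀ s t, Pre P (F P grp b) (src a b) (snk a b) s →
        Pre P (F P grp b) (src c b) (snk c b) t →
        P.p (src a b) (snk a b) s ≠ P.p (src c b) (snk c b) t) :
    HasRootedModel G (Set.range P.x) (⊤ : SimpleGraph (Fin m)) := by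
  obtain ⟨B, hB⟩ := asm_exists_B P grp src snk
  -- basic facts
  have hFB : ∀ a, F P grp a ⊆ B a := fun a v hv => by rw [hB a]; exact Or.inl hv
  have hne : ∀ a b, a < b → src a b ≠ snk a b := by
    intro a b hab h
    have h1 := hsrc a b hab
    rw [h, hsnk a b hab] at h1
    exact hab.ne' h1
  have huniq : ∀ v i j, v ∈ P.A i → v ∈ P.A j → i = j := by
    intro v i j hi hj
    by_contra hij
    exact Set.disjoint_left.1 (P.disj i j hij) hi hj
  have hFcol : ∀ a v, v ∈ F P grp a → ∃ i, grp i = a ∧ v ∈ P.A i := by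
    rintro a v (⟨i, hi, rfl⟩ | ⟨i, j, hij, hi, hj, s, hs, rfl⟩)
    · exact ⟨i, hi, P.xA i⟩
    · rcases P.pA i j hij s hs with h | h
      · exact ⟨i, hi, h⟩
      · exact ⟨j, hj, h⟩
  have hPcol : ∀ a b, a < b → ∀ s ≤ P.n (src a b) (snk a b),
      P.p (src a b) (snk a b) s ∈ P.A (src a b) ∨ P.p (src a b) (snk a b) s ∈ P.A (snk a b) :=
    fun a b hab s hs => P.pA _ _ (hne a b hab) s hs
  have hBcol : ∀ a v, v ∈ B a → ∃ i, a ≤ grp i ∧ v ∈ P.A i := by
    intro a v hv
    rw [hB a] at hv
    rcases hv with hv | ⟨b, hab, s, hs, rfl⟩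
    · obtain ⟨i, hi, h⟩ := hFcol a v hv
      exact ⟨i, hi.ge, h⟩
    · rcases hPcol a b hab s hs.1 with h | h
      · exact ⟨_, (hsrc a b hab).ge, h⟩
      · exact ⟨_, by rw [hsnk a b hab]; exact hab.le, h⟩
  have hPF : ∀ b i j s, Pre P (B b) i j s → Pre P (F P grp b) i j s :=
    fun b i j s h => ⟨h.1, fun s' hs' hm => h.2 s' hs' (hFB b hm)⟩
  have hdis : ∀ a b, a < b → Disjoint (B a) (B b) := by
    intro a b hab
    rw [Set.disjoint_left]
    intro v hva hvb
    obtain ⟨j, hj, hvj⟩ := hBcol b v hvb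
    have hva' := hva
    rw [hB a] at hva'
    rcases hva' with hv | ⟨c, hac, s, hs, rfl⟩
    · obtain ⟨i, hi, h⟩ := hFcol a v hv
      have := huniq v i j h hvj
      rw [← this, hi] at hj
      exact absurd hab (not_lt.2 hj)
    · -- the colour of the vertex
      have hcol : P.p (src a c) (snk a c) s ∈ P.A (snk a c) := by
        rcases hPcol a c hac s hs.1 with h | h
        · have := huniq _ _ _ h hvj
          rw [← this, hsrc a c hac] at hj
          exact absurd hab (not_lt.2 hj)
        · exact h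
      have hbc : b ≤ c := by
        have := huniq _ _ _ hcol hvj
        rw [← this, hsnk a c hac] at hj
        exact hj
      rcases eq_or_lt_of_le hbc with rfl | hbc
      · exact hs.2 s le_rfl hvb
      · rw [hB b] at hvb
        rcases hvb with hv | ⟨d, hbd, t, ht, he⟩
        · obtain ⟨i, hi, h⟩ := hFcol b _ hv
          have := huniq _ _ _ hcol h
          rw [← this, hsnk a c hac] at hi
          exact hbc.ne' hi
        · have hcold : P.p (src b d) (snk b d) t ∈ P.A (snk b d) := by
            rcases hPcol b d hbd t ht.1 with h | h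
            · rw [he] at hcol
              have := huniq _ _ _ h hcol
              have h2 := hsrc b d hbd
              rw [this, hsnk a c hac] at h2
              exact absurd h2 hbc.ne'
            · exact h
          rw [← he] at hcold
          have hsn := huniq _ _ _ hcol hcold
          have hcd : c = d := by
            have h2 := hsnk a c hac
            rw [hsn, hsnk b d hbd] at h2
            exact h2.symm
          subst hcd
          exact hconf a b c hac hbd hab.ne hsn s t (hPF _ _ _ _ hs) (hPF _ _ _ _ ht) he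
  have hadj : ∀ a b, a < b → ∃ u ∈ B a, ∃ v ∈ B b, G.Adj u v := by
    intro a b hab
    have hij := hne a b hab
    have hend : P.p (src a b) (snk a b) (P.n (src a b) (snk a b)) ∈ B b := by
      rw [P.en _ _ hij]
      exact hFB b (Or.inl ⟨_, hsnk a b hab, rfl⟩)
    classical
    have hex : ∃ s, P.p (src a b) (snk a b) s ∈ B b := ⟨_, hend⟩
    have hsp := Nat.find_spec hex
    have hmin := fun t (ht : t < Nat.find hex) => Nat.find_min hex ht
    have hle : Nat.find hex ≤ P.n (src a b) (snk a b) := Nat.find_min' hex hend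
    have h0 : Nat.find hex ≠ 0 := by
      intro h
      rw [h, P.st _ _ hij] at hsp
      obtain ⟨j, hj, hx⟩ := hBcol b _ hsp
      have := huniq _ _ _ (P.xA (src a b)) hx
      rw [← this, hsrc a b hab] at hj
      exact absurd hab (not_lt.2 hj)
    obtain ⟨s, hs⟩ := Nat.exists_eq_succ_of_ne_zero h0
    rw [Nat.succ_eq_add_one] at hs
    rw [hs] at hsp hmin hle
    refine ⟨P.p (src a b) (snk a b) s, ?_, P.p (src a b) (snk a b) (s + 1), hsp,
      P.ad _ _ hij s (by omega)⟩
    rw [hB a]
    exact Or.inr ⟨b, hab, s, ⟨by omega, fun s' hs' => hmin s' (by omega)⟩, rfl⟩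
  have hx : ∀ a i, grp i = a → P.x i ∈ B a := fun a i hi => hFB a (Or.inl ⟨i, hi, rfl⟩)
  refine ⟨B, ?_, ?_, ?_, ?_⟩
  · intro a
    obtain ⟨i0, hi0⟩ := hsurj a
    have hroot : ∀ i, grp i = a → AsmRch G (B a) (P.x i0) (P.x i) := by
      intro i hi
      by_cases h : i0 = i
      · subst h
        exact ⟨hx a i0 hi0, hx a i0 hi0, SimpleGraph.Reachable.refl _⟩
      · have := asm_path (G := G) (S := B a) (P.p i0 i) (P.n i0 i)
          (fun t ht => P.ad _ _ h t ht)
          (fun t ht => hFB a (Or.inr ⟨i0, i, h, hi0, hi, t, ht, rfl⟩))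
        rwa [P.st _ _ h, P.en _ _ h] at this
    rw [SimpleGraph.connected_iff_exists_forall_reachable]
    refine ⟨⟨P.x i0, hx a i0 hi0⟩, ?_⟩
    rintro ⟨v, hv⟩
    have key : AsmRch G (B a) (P.x i0) v := by
      have hv' := hv
      rw [hB a] at hv'
      rcases hv' with (⟨i, hi, rfl⟩ | ⟨i, j, hij, hi, hj, s, hs, rfl⟩) | ⟨b, hab, s, hs, rfl⟩
      · exact hroot i hi
      · refine asm_trans (hroot i hi) ?_
        have := asm_path (G := G) (S := B a) (P.p i j) s
          (fun t ht => P.ad _ _ hij t (by omega))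
          (fun t ht => hFB a (Or.inr ⟨i, j, hij, hi, hj, t, by omega, rfl⟩))
        rwa [P.st _ _ hij] at this
      · refine asm_trans (hroot (src a b) (hsrc a b hab)) ?_
        have := asm_path (G := G) (S := B a) (P.p (src a b) (snk a b)) s
          (fun t ht => P.ad _ _ (hne a b hab) t (by have := hs.1; omega))
          (fun t ht => by
            rw [hB a]
            exact Or.inr ⟨b, hab, t, ⟨ht.trans hs.1, fun s' hs' => hs.2 s' (hs'.trans ht)⟩, rfl⟩)
        rwa [P.st _ _ (hne a b hab)] at this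
    obtain ⟨_, _, h⟩ := key
    exact h
  · intro a b hab
    rcases lt_or_gt_of_ne hab with h | h
    · exact hdis a b h
    · exact (hdis b a h).symm
  · intro a b hab
    have hab' : a ≠ b := by simpa using hab
    rcases lt_or_gt_of_ne hab' with h | h
    · exact hadj a b h
    · obtain ⟨u, hu, v, hv, hadj'⟩ := hadj b a h
      exact ⟨v, hv, u, hu, hadj'.symm⟩
  · intro a
    obtain ⟨i0, hi0⟩ := hsurj a
    exact ⟨P.x i0, hx a i0 hi0, ⟨i0, rfl⟩⟩

end RootedKC
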