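import Pool.Agent.Lib.MP_09e206_co.MainK

/-! # Rooted clique minors from Kempe chains: choice of the parameters -/

namespace RootedKC

theorem HasRootedModel.mono {V W : Type} {G : SimpleGraph V} {R S : Set V} (h : R ⊆ S)
    {H : SimpleGraph W} (hR : HasRootedModel G R H) : HasRootedModel G S H := by
  obtain ⟨μ, h1, h2, h3, h4⟩ := hR
  exact ⟨μ, h1, h2, h3, fun w => (h4 w).mono (Set.inter_subset_inter_right _ h)⟩

theorem rooted_one {V : Type} {k : ℕ} {G : SimpleGraph V} (P : PS G (Fin k)) (hk : 0 < k) :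
    HasRootedModel G (Set.range P.x) (⊤ : SimpleGraph (Fin 1)) := by
  refine ⟨fun _ => {P.x ⟨0, hk⟩}, ?_, ?_, ?_, ?_⟩
  · intro w
    haveI : Nonempty ({P.x ⟨0, hk⟩} : Set V) := ⟨⟨_, rfl⟩⟩
    haveI : Subsingleton ({P.x ⟨0, hk⟩} : Set V) := ⟨fun a b => by
      obtain ⟨a, ha⟩ := a
      obtain ⟨b, hb⟩ := b
      simp only [Set.mem_singleton_iff] at ha hb
      subst ha hb
      rfl⟩
    exact { preconnected := fun a b => by rw [Subsingleton.elim a b] }
  · intro w w' h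
    exact absurd (Subsingleton.elim w w') h
  · intro w w' h
    exact absurd (Subsingleton.elim w w') h.ne
  · intro w
    exact ⟨P.x ⟨0, hk⟩, rfl, ⟨_, rfl⟩⟩

/-- the form of the theorem for natural numbers -/
theorem rooted_of_nat {V : Type} {G : SimpleGraph V} (k m : ℕ) (hm : 0 < m)
    (P : PS G (Fin k)) (h1 : 16 * m ^ 3 * (2 * Nat.log 2 k + 3) ≤ k ^ 2)
    (h2 : 2 * (m * (2 * Nat.log 2 k + 3)) + 3 ≤ k) :
    HasRootedModel G (Set.range P.x) (⊤ : SimpleGraph (Fin m)) := by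
  haveI : NeZero m := ⟨hm.ne'⟩
  set M := 2 * Nat.log 2 k + 3 with hM
  have hmk : m ≤ k := by
    have : m * 1 ≤ m * M := Nat.mul_le_mul_left _ (by omega)
    omega
  have hg1 : k / m * m ≤ k := Nat.div_mul_le_self k m
  have hg2 : k < k / m * m + m := by
    have := Nat.lt_div_mul_add hm (a := k)
    exact this
  have hg0 : 1 ≤ k / m := Nat.div_pos hmk hm
  have hg3 : k < 2 * (k / m * m) := by
    have : m ≤ k / m * m := Nat.le_mul_of_pos_left _ hg0
    omega
  have hcard : Fintype.card (Fin (k / m) × ZMod m) ≤ Fintype.card (Fin k) := by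
    rw [Fintype.card_prod, Fintype.card_fin, ZMod.card, Fintype.card_fin]
    exact hg1
  obtain ⟨κ⟩ := Function.Embedding.nonempty_of_card_le hcard
  obtain ⟨Q, hQ⟩ := PS.restrict P κ κ.injective
  have hsub : Set.range Q.x ⊆ Set.range P.x := by
    rintro _ ⟨i, rfl⟩
    exact ⟨κ i, (hQ i).symm⟩
  refine HasRootedModel.mono hsub ?_
  refine rooted_of_params (k / m) m (M - 1) Q ?_ ?_ ?_
  · have hk2 : k < 2 ^ (Nat.log 2 k + 1) := Nat.lt_pow_succ_log_self (by norm_num) k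
    calc (k / m * m) ^ 2 ≤ k ^ 2 := Nat.pow_le_pow_left hg1 2
      _ < (2 ^ (Nat.log 2 k + 1)) ^ 2 := Nat.pow_lt_pow_left hk2 (by norm_num)
      _ = 2 ^ (M - 1) := by
        rw [← pow_mul]
        congr 1
        omega
  · have hM1 : M - 1 + 1 = M := by omega
    rw [hM1]
    have h3 : 16 * m ^ 3 * M ≤ (2 * (k / m * m)) ^ 2 :=
      le_trans h1 (Nat.pow_le_pow_left hg3.le 2)
    have h4 : (4 * m ^ 2) * (4 * (m * M)) ≤ (4 * m ^ 2) * (k / m * (k / m)) := by
      calc (4 * m ^ 2) * (4 * (m * M)) = 16 * m ^ 3 * M := by ring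
        _ ≤ (2 * (k / m * m)) ^ 2 := h3
        _ = (4 * m ^ 2) * (k / m * (k / m)) := by ring
    exact Nat.le_of_mul_le_mul_left h4 (by positivity)
  · have hM1 : M - 1 + 1 = M := by omega
    rw [hM1]
    omega

theorem sq_le_two_pow (n : ℕ) (hn : 10 ≤ n) : (2 * n + 3) ^ 2 ≤ 2 ^ n := by
  induction n, hn using Nat.le_induction with
  | base => norm_num
  | succ n hn ih =>
    have : (2 * (n + 1) + 3) ^ 2 ≤ 2 * (2 * n + 3) ^ 2 := by nlinarith
    calc (2 * (n + 1) + 3) ^ 2 ≤ 2 * (2 * n + 3) ^ 2 := this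
      _ ≤ 2 * 2 ^ n := Nat.mul_le_mul_left _ ih
      _ = 2 ^ (n + 1) := by ring

theorem second_cond (k m : ℕ) (hk : 1024 ≤ k)
    (h1 : 16 * m ^ 3 * (2 * Nat.log 2 k + 3) ≤ k ^ 2) :
    2 * (m * (2 * Nat.log 2 k + 3)) + 3 ≤ k := by
  set M := 2 * Nat.log 2 k + 3 with hM
  have hlog : 10 ≤ Nat.log 2 k := by
    have : Nat.log 2 1024 ≤ Nat.log 2 k := Nat.log_mono_right hk
    have h1024 : Nat.log 2 1024 = 10 := by
      rw [show (1024 : ℕ) = 2 ^ 10 by norm_num, Nat.log_pow (by norm_num)]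
    omega
  have hM2 : M ^ 2 ≤ k := by
    calc M ^ 2 ≤ 2 ^ Nat.log 2 k := sq_le_two_pow _ hlog
      _ ≤ k := Nat.pow_log_le_self 2 (by omega)
  have h3 : 16 * (m * M) ^ 3 ≤ k ^ 3 := by
    calc 16 * (m * M) ^ 3 = (16 * m ^ 3 * M) * M ^ 2 := by ring
      _ ≤ k ^ 2 * k := Nat.mul_le_mul h1 hM2
      _ = k ^ 3 := by ring
  by_contra hcon
  push Not at hcon
  have h4 : k - 2 ≤ 2 * (m * M) := by omega
  have h5 : 2 * (k - 2) ^ 3 ≤ 16 * (m * M) ^ 3 := by
    calc 2 * (k - 2) ^ 3 ≤ 2 * (2 * (m * M)) ^ 3 :=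
          Nat.mul_le_mul_left _ (Nat.pow_le_pow_left h4 3)
      _ = 16 * (m * M) ^ 3 := by ring
  have h6 : 2 * (k - 2) ^ 3 ≤ k ^ 3 := le_trans h5 h3
  obtain ⟨j, rfl⟩ : ∃ j, k = j + 1024 := ⟨k - 1024, by omega⟩
  have h7 : j + 1024 - 2 = j + 1022 := by omega
  rw [h7] at h6
  nlinarith [h6, Nat.zero_le j, Nat.zero_le (j ^ 2), Nat.zero_le (j ^ 3)]

open Real in
/-- the asymptotic form -/
theorem kempe_rooted : ∃ c : ℝ, 0 < c ∧ ∀ k : ℕ, 2 ≤ k → ∃ m : ℕ,
    c * ((k : ℝ) ^ 2 / Real.log k) ^ ((1 : ℝ) / 3) ≤ m ∧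
    ∀ (V : Type) (G : SimpleGraph V) (P : PS G (Fin k)),
      HasRootedModel G (Set.range P.x) (⊤ : SimpleGraph (Fin m)) := by
  refine ⟨1 / 128, by norm_num, ?_⟩
  intro k hk
  have hk0 : (0 : ℝ) < k := by positivity
  have hlog2 : (1 : ℝ) / 2 ≤ Real.log 2 := by
    have := Real.log_two_gt_d9
    linarith
  have hlogk : Real.log 2 ≤ Real.log k :=
    Real.log_le_log (by norm_num) (by exact_mod_cast hk)
  have hlogk0 : 0 < Real.log k := by linarith
  -- reduction to a cube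
  have key : ∀ m : ℕ, (k : ℝ) ^ 2 / Real.log k ≤ (128 * (m : ℝ)) ^ 3 →
      1 / 128 * ((k : ℝ) ^ 2 / Real.log k) ^ ((1 : ℝ) / 3) ≤ m := by
    intro m hm
    have h0 : (0 : ℝ) ≤ (k : ℝ) ^ 2 / Real.log k := by positivity
    have h1 : ((k : ℝ) ^ 2 / Real.log k) ^ ((1 : ℝ) / 3) ≤
        ((128 * (m : ℝ)) ^ 3) ^ ((1 : ℝ) / 3) :=
      Real.rpow_le_rpow h0 hm (by norm_num)
    have h2 : ((128 * (m : ℝ)) ^ 3) ^ ((1 : ℝ) / 3) = 128 * m := by
      rw [← Real.rpow_natCast (128 * (m : ℝ)) 3, ← Real.rpow_mul (by positivity)]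
      norm_num
    rw [h2] at h1
    linarith
  rcases lt_or_ge k 1024 with hsmall | hbig
  · refine ⟨1, key 1 ?_, fun V G P => rooted_one P (by omega)⟩
    rw [div_le_iff₀ hlogk0]
    have hkr : (k : ℝ) ≤ 1024 := by exact_mod_cast hsmall.le
    have hk2 : (k : ℝ) ^ 2 ≤ 1024 ^ 2 := by
      have := pow_le_pow_left₀ hk0.le hkr 2
      exact this
    norm_num at hk2 ⊢
    nlinarith
  · set M := 2 * Nat.log 2 k + 3 with hM
    have hM0 : 0 < M := by omega
    -- the largest m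
    have hexists : 16 * 1 ^ 3 * M ≤ k ^ 2 := by
      have h1 : M ^ 2 ≤ k := by
        have hlog : 10 ≤ Nat.log 2 k := by
          have : Nat.log 2 1024 ≤ Nat.log 2 k := Nat.log_mono_right hbig
          have h1024 : Nat.log 2 1024 = 10 := by
            rw [show (1024 : ℕ) = 2 ^ 10 by norm_num, Nat.log_pow (by norm_num)]
          omega
        calc M ^ 2 ≤ 2 ^ Nat.log 2 k := sq_le_two_pow _ hlog
          _ ≤ k := Nat.pow_log_le_self 2 (by omega)
      have h2 : M ≤ k := by nlinarith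
      calc 16 * 1 ^ 3 * M = 16 * M := by ring
        _ ≤ k * k := Nat.mul_le_mul (by omega) h2
        _ = k ^ 2 := by ring
    let S := (Finset.range (k + 1)).filter (fun m => 16 * m ^ 3 * M ≤ k ^ 2)
    have hS : S.Nonempty := ⟨1, by
      simp only [S, Finset.mem_filter, Finset.mem_range]
      exact ⟨by omega, hexists⟩⟩
    let m := S.max' hS
    have hmS : m ∈ S := S.max'_mem hS
    have hm1 : 16 * m ^ 3 * M ≤ k ^ 2 := (Finset.mem_filter.1 hmS).2
    have hmpos : 1 ≤ m := S.le_max' 1 (by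
      simp only [S, Finset.mem_filter, Finset.mem_range]
      exact ⟨by omega, hexists⟩)
    have hm2 : k ^ 2 < 16 * (m + 1) ^ 3 * M := by
      by_contra hcon
      push Not at hcon
      have hle : m + 1 ≤ k := by
        by_contra h
        push Not at h
        have h3 : k ≤ m := by omega
        have h4 : k ^ 3 ≤ m ^ 3 := Nat.pow_le_pow_left h3 3
        have h5 : k ^ 2 * 1 < k ^ 2 * k := Nat.mul_lt_mul_of_pos_left (by omega) (by positivity)
        have h6 : k ^ 3 ≤ 16 * m ^ 3 * M := by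
          calc k ^ 3 ≤ m ^ 3 := h4
            _ ≤ 16 * m ^ 3 * M := by nlinarith [Nat.zero_le (m ^ 3)]
        have h7 : k ^ 2 * k = k ^ 3 := by ring
        omega
      have hmem : m + 1 ∈ S := by
        simp only [S, Finset.mem_filter, Finset.mem_range]
        exact ⟨by omega, hcon⟩
      have := S.le_max' _ hmem
      change m + 1 ≤ m at this
      omega
    refine ⟨m, key m ?_, fun V G P => rooted_of_nat k m hmpos P hm1 (second_cond k m hbig hm1)⟩
    rw [div_le_iff₀ hlogk0]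
    have hm3 : (k : ℝ) ^ 2 ≤ 16 * ((m : ℝ) + 1) ^ 3 * M := by exact_mod_cast hm2.le
    have hm4 : ((m : ℝ) + 1) ^ 3 ≤ (2 * m) ^ 3 := by
      have : (1 : ℝ) ≤ m := by exact_mod_cast hmpos
      exact pow_le_pow_left₀ (by positivity) (by linarith) 3
    have hMlog : (M : ℝ) ≤ 16 * Real.log k := by
      have h1 : ((Nat.log 2 k : ℕ) : ℝ) * Real.log 2 ≤ Real.log k := by
        have h2 : (2 : ℝ) ^ Nat.log 2 k ≤ k := by
          exact_mod_cast Nat.pow_log_le_self 2 (by omega)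
        have h3 := Real.log_le_log (by positivity) h2
        rwa [Real.log_pow] at h3
      have h2 : ((Nat.log 2 k : ℕ) : ℝ) ≤ 2 * Real.log k := by
        have : (0 : ℝ) ≤ (Nat.log 2 k : ℕ) := by positivity
        nlinarith
      have h3 : (M : ℝ) = 2 * ((Nat.log 2 k : ℕ) : ℝ) + 3 := by
        rw [hM]; push_cast; ring
      rw [h3]
      nlinarith
    have hm0 : (0 : ℝ) ≤ (m : ℝ) ^ 3 := by positivity
    calc (k : ℝ) ^ 2 ≤ 16 * ((m : ℝ) + 1) ^ 3 * M := hm3
      _ ≤ 16 * (2 * (m : ℝ)) ^ 3 * (16 * Real.log k) := by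
        apply mul_le_mul _ hMlog (by positivity) (by positivity)
        exact mul_le_mul_of_nonneg_left hm4 (by norm_num)
      _ = 2048 * (m : ℝ) ^ 3 * Real.log k := by ring
      _ ≤ (128 * (m : ℝ)) ^ 3 * Real.log k := by
        have : 2048 * (m : ℝ) ^ 3 ≤ (128 * (m : ℝ)) ^ 3 := by
          have h : (128 * (m : ℝ)) ^ 3 = 2097152 * (m : ℝ) ^ 3 := by ring
          rw [h]
          linarith
        exact mul_le_mul_of_nonneg_right this hlogk0.le

end RootedKC
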