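import Pool.Agent.Lib.MP_09e206_co.Defs

/-! # The first paths met by a path -/

namespace RootedKC

/-- threshold -/
theorem exists_threshold {J : Type} (S : Finset J) (f : J → ℕ) (t : ℕ) (ht : 1 ≤ t)
    (hS : t ≤ S.card) : ∃ θ, t ≤ (S.filter (fun l => f l ≤ θ)).card ∧
      (S.filter (fun l => f l < θ)).card < t := by
  have hex : ∃ θ, t ≤ (S.filter (fun l => f l ≤ θ)).card := by
    refine ⟨S.sup f, ?_⟩
    rw [Finset.filter_true_of_mem fun l hl => Finset.le_sup hl]
    exact hS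
  classical
  refine ⟨Nat.find hex, Nat.find_spec hex, ?_⟩
  rcases Nat.eq_zero_or_pos (Nat.find hex) with h0 | h0
  · rw [h0, Finset.filter_false_of_mem fun l _ => Nat.not_lt_zero _, Finset.card_empty]
    exact ht
  · have h1 := Nat.find_min hex (Nat.sub_lt h0 Nat.one_pos)
    rw [not_le] at h1
    refine lt_of_le_of_lt (Finset.card_le_card ?_) h1
    intro l hl
    rw [Finset.mem_filter] at hl ⊢
    exact ⟨hl.1, Nat.le_sub_one_of_lt hl.2⟩

/-- the set of the first `t` paths `p l j` met by the path `p i j` -/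
theorem exists_first {V : Type} {G : SimpleGraph V} {I : Type} [Fintype I] [DecidableEq I]
    (P : PS G I) (i j : I) (hij : i ≠ j) (t : ℕ) (ht : 1 ≤ t) (hI : t + 2 ≤ Fintype.card I) :
    ∃ T : Finset I, t ≤ T.card ∧ i ∉ T ∧ j ∉ T ∧
      ∀ (m : ℕ) (grp : I → Fin m), (∃ h ∈ T, grp h = grp j) →
        ∃ U : Finset I, U.card < t ∧
          ∀ l, l ≠ i → l ≠ j → (∃ s u, Pre P (F P grp (grp j)) i j s ∧ u ≤ P.n l j ∧
            P.p i j s = P.p l j u) → l ∈ U := by
  let A : I → Set ℕ := fun l => {s | s ≤ P.n i j ∧ ∃ u, u ≤ P.n l j ∧ P.p i j s = P.p l j u}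
  let f : I → ℕ := fun l => sInf (A l)
  have hne : ∀ l, l ≠ j → (A l).Nonempty := fun l hl =>
    ⟨P.n i j, le_rfl, P.n l j, le_rfl, by rw [P.en i j hij, P.en l j hl]⟩
  have hS : t ≤ (Finset.univ \ {i, j} : Finset I).card := by
    have h1 := Finset.card_le_card_sdiff_add_card (s := Finset.univ) (t := ({i, j} : Finset I))
    have h2 : ({i, j} : Finset I).card ≤ 2 := Finset.card_le_two
    rw [Finset.card_univ] at h1
    omega
  obtain ⟨θ, h1, h2⟩ := exists_threshold (Finset.univ \ {i, j}) f t ht hS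
  refine ⟨(Finset.univ \ {i, j}).filter (fun l => f l ≤ θ), h1, ?_, ?_, ?_⟩
  · intro h
    rw [Finset.mem_filter, Finset.mem_sdiff] at h
    exact h.1.2 (Finset.mem_insert_self _ _)
  · intro h
    rw [Finset.mem_filter, Finset.mem_sdiff] at h
    exact h.1.2 (Finset.mem_insert_of_mem (Finset.mem_singleton_self _))
  · rintro m grp ⟨h, hT, hg⟩
    rw [Finset.mem_filter, Finset.mem_sdiff] at hT
    have hhj : h ≠ j := by
      rintro rfl
      exact hT.1.2 (Finset.mem_insert_of_mem (Finset.mem_singleton_self _))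
    obtain ⟨h3, u', h4, h5⟩ : f h ∈ A h := Nat.sInf_mem (hne h hhj)
    refine ⟨(Finset.univ \ {i, j}).filter (fun l => f l < θ), h2, ?_⟩
    rintro l hli hlj ⟨s, u, hpre, hu, hsu⟩
    have h6 : f l ≤ s := Nat.sInf_le ⟨hpre.1, u, hu, hsu⟩
    have h7 : s < f h := by
      by_contra hcon
      rw [not_lt] at hcon
      exact hpre.2 (f h) hcon (Or.inr ⟨h, j, hhj, hg, rfl, u', h4, h5⟩)
    rw [Finset.mem_filter, Finset.mem_sdiff]
    refine ⟨⟨Finset.mem_univ _, ?_⟩, by have := hT.2; omega⟩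
    rw [Finset.mem_insert, Finset.mem_singleton]
    rintro (h8 | h8)
    · exact hli h8
    · exact hlj h8

end RootedKC
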