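import Mathlib

/-! # Rooted clique minors in graphs realizing a set of colourings: definitions -/

namespace RootedKC

/-- a set of `k`-colourings of `X` (closed under permutations of the colours) -/
def IsColSet {X : Type} (k : ℕ) (C : Set (X → Fin k)) : Prop :=
  ∀ f ∈ C, ∀ π : Equiv.Perm (Fin k), (fun x => π (f x)) ∈ C

/-- proper colourings -/
def Proper {V : Type} {k : ℕ} (G : SimpleGraph V) (φ : V → Fin k) : Prop :=
  ∀ u v, G.Adj u v → φ u ≠ φ v

/-- the graph `G`, with `X` embedded in its vertex set by `ι`, realizes `C` -/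
def Realizes {X V : Type} {k : ℕ} (G : SimpleGraph V) (ι : X ↪ V) (C : Set (X → Fin k)) : Prop :=
  ∀ f : X → Fin k, f ∈ C ↔ ∃ φ : V → Fin k, Proper G φ ∧ ∀ x, φ (ι x) = f x

/-- `H` has an `R`-rooted model in `G` -/
def HasRootedModel {V W : Type} (G : SimpleGraph V) (R : Set V) (H : SimpleGraph W) : Prop :=
  ∃ μ : W → Set V, (∀ w, (G.induce (μ w)).Connected) ∧
    (∀ w w', w ≠ w' → Disjoint (μ w) (μ w')) ∧
    (∀ w w', H.Adj w w' → ∃ u ∈ μ w, ∃ v ∈ μ w', G.Adj u v) ∧
    (∀ w, (μ w ∩ R).Nonempty)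

/-- a system of two-coloured paths between roots `x i`; `A i` is the colour class `i` -/
structure PS {V : Type} (G : SimpleGraph V) (I : Type) where
  x : I → V
  n : I → I → ℕ
  p : I → I → ℕ → V
  A : I → Set V
  disj : ∀ i j, i ≠ j → Disjoint (A i) (A j)
  xA : ∀ i, x i ∈ A i
  st : ∀ i j, i ≠ j → p i j 0 = x i
  en : ∀ i j, i ≠ j → p i j (n i j) = x j
  ad : ∀ i j, i ≠ j → ∀ s < n i j, G.Adj (p i j s) (p i j (s + 1))
  pA : ∀ i j, i ≠ j → ∀ s ≤ n i j, p i j s ∈ A i ∨ p i j s ∈ A j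

/-- the union of the paths inside the group `a` -/
def F {V : Type} {G : SimpleGraph V} {I : Type} (P : PS G I) {m : ℕ} (grp : I → Fin m)
    (a : Fin m) : Set V :=
  {v | (∃ i, grp i = a ∧ v = P.x i) ∨
    ∃ i j, i ≠ j ∧ grp i = a ∧ grp j = a ∧ ∃ s ≤ P.n i j, v = P.p i j s}

/-- the position `s` of the path from `x i` to `x j` is reached before the set `S` is met -/
def Pre {V : Type} {G : SimpleGraph V} {I : Type} (P : PS G I) (S : Set V) (i j : I)
    (s : ℕ) : Prop := s ≤ P.n i j ∧ ∀ s' ≤ s, P.p i j s' ∉ S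

end RootedKC
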