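import Pool.Agent.Lib.MP_09e206_co.Defs

/-! # Kempe chains between the roots -/

namespace RootedKC

/-- a proper colouring which is a bijection on the roots, with two-coloured paths between the
roots, gives a path system -/
theorem exists_PS' {V : Type} {k : ℕ} (G : SimpleGraph V) (x : Fin k → V) (φ : V → Fin k)
    (hφ : Proper G φ) (hx : ∀ i, φ (x i) = i)
    (hK : ∀ i j, i ≠ j → ∃ (n : ℕ) (p : ℕ → V), p 0 = x i ∧ p n = x j ∧
      (∀ s < n, G.Adj (p s) (p (s + 1))) ∧ ∀ s ≤ n, φ (p s) = i ∨ φ (p s) = j) :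
    ∃ P : PS G (Fin k), ∀ i, P.x i = x i := by
  have hK' : ∀ i j, ∃ (n : ℕ) (p : ℕ → V), i ≠ j → p 0 = x i ∧ p n = x j ∧
      (∀ s < n, G.Adj (p s) (p (s + 1))) ∧ ∀ s ≤ n, φ (p s) = i ∨ φ (p s) = j := by
    intro i j
    by_cases h : i = j
    · exact ⟨0, fun _ => x i, fun h' => absurd h h'⟩
    · obtain ⟨n, p, hp⟩ := hK i j h
      exact ⟨n, p, fun _ => hp⟩
  choose n p hp using hK'
  refine ⟨{ x := x
            n := n
            p := p
            A := fun i => {v | φ v = i}
            disj := fun _ _ hij => Set.disjoint_left.2 fun v hv hv' => hij (hv.symm.trans hv')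
            xA := hx
            st := fun i j hij => (hp i j hij).1
            en := fun i j hij => (hp i j hij).2.1
            ad := fun i j hij => (hp i j hij).2.2.1
            pA := fun i j hij => (hp i j hij).2.2.2 }, fun _ => rfl⟩

/-- Kempe chains: if `G` realizes the set of bijections then any two roots are joined by a
two-coloured path. -/
theorem exists_PS {V : Type} {k : ℕ} (G : SimpleGraph V) (ι : Fin k ↪ V)
    (h : Realizes G ι {f : Fin k → Fin k | Function.Bijective f}) :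
    ∃ P : PS G (Fin k), ∀ i, P.x i = ι i := by
  classical
  obtain ⟨φ, hφ, hφι⟩ := (h id).1 Function.bijective_id
  refine exists_PS' G ι φ hφ hφι ?_
  intro i j hij
  by_contra hno
  obtain ⟨S, hS⟩ : ∃ S : Set V, ∀ v, v ∈ S ↔ ∃ (n : ℕ) (p : ℕ → V), p 0 = ι i ∧ p n = v ∧
      (∀ s < n, G.Adj (p s) (p (s + 1))) ∧ ∀ s ≤ n, φ (p s) = i ∨ φ (p s) = j :=
    ⟨{v | ∃ (n : ℕ) (p : ℕ → V), p 0 = ι i ∧ p n = v ∧
      (∀ s < n, G.Adj (p s) (p (s + 1))) ∧ ∀ s ≤ n, φ (p s) = i ∨ φ (p s) = j}, fun v => Iff.rfl⟩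
  have hjS : ι j ∉ S := fun hj => hno ((hS _).1 hj)
  have hiS : ι i ∈ S := (hS _).2 ⟨0, fun _ => ι i, rfl, rfl,
    fun s hs => absurd hs (Nat.not_lt_zero s), fun s _ => Or.inl (hφι i)⟩
  -- closure of `S`
  have hclos : ∀ u v, u ∈ S → G.Adj u v → (φ v = i ∨ φ v = j) → v ∈ S := by
    intro u v hu huv hv
    obtain ⟨n, p, hp0, hpn, had, hcol⟩ := (hS _).1 hu
    refine (hS _).2 ⟨n + 1, fun s => if s ≤ n then p s else v, ?_, ?_, ?_, ?_⟩
    · beta_reduce
      rw [if_pos (Nat.zero_le n)]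
      exact hp0
    · beta_reduce
      rw [if_neg (by omega)]
    · intro s hs
      beta_reduce
      rw [if_pos (show s ≤ n by omega)]
      rcases Nat.lt_or_ge s n with h1 | h1
      · rw [if_pos (show s + 1 ≤ n from h1)]
        exact had s h1
      · have h2 : s = n := by omega
        rw [if_neg (by omega), h2, hpn]
        exact huv
    · intro s hs
      beta_reduce
      split_ifs with h1
      · exact hcol s h1
      · exact hv
  have hScol : ∀ u ∈ S, φ u = i ∨ φ u = j := by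
    intro u hu
    obtain ⟨n, p, -, hpn, -, hcol⟩ := (hS _).1 hu
    rw [← hpn]
    exact hcol n le_rfl
  -- the Kempe switch
  obtain ⟨ψ, hψ⟩ : ∃ ψ : V → Fin k, ∀ v, ψ v = if v ∈ S then Equiv.swap i j (φ v) else φ v :=
    ⟨fun v => if v ∈ S then Equiv.swap i j (φ v) else φ v, fun v => rfl⟩
  have hmix : ∀ u v, G.Adj u v → u ∈ S → v ∉ S → ψ u ≠ ψ v := by
    intro u v huv hu hv
    have h1 : ¬ (φ v = i ∨ φ v = j) := fun h1 => hv (hclos u v hu huv h1)
    rw [hψ u, hψ v, if_pos hu, if_neg hv]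
    intro h2
    apply h1
    rcases hScol u hu with h3 | h3
    · rw [h3, Equiv.swap_apply_left] at h2
      exact Or.inr h2.symm
    · rw [h3, Equiv.swap_apply_right] at h2
      exact Or.inl h2.symm
  have hψp : Proper G ψ := by
    intro u v huv
    by_cases hu : u ∈ S
    · by_cases hv : v ∈ S
      · rw [hψ u, hψ v, if_pos hu, if_pos hv]
        exact fun h1 => hφ u v huv ((Equiv.swap i j).injective h1)
      · exact hmix u v huv hu hv
    · by_cases hv : v ∈ S
      · exact (hmix v u huv.symm hv hu).symm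
      · rw [hψ u, hψ v, if_neg hu, if_neg hv]
        exact hφ u v huv
  have hbij : Function.Bijective (fun a => ψ (ι a)) :=
    (h (fun a => ψ (ι a))).2 ⟨ψ, hψp, fun _ => rfl⟩
  apply hij
  apply hbij.injective
  show ψ (ι i) = ψ (ι j)
  rw [hψ, hψ, if_pos hiS, if_neg hjS, hφι, hφι]
  exact Equiv.swap_apply_left i j

/-- restriction to a subset of the roots -/
theorem PS.restrict {V : Type} {G : SimpleGraph V} {I J : Type} (P : PS G J) (κ : I → J)
    (hκ : Function.Injective κ) : ∃ Q : PS G I, ∀ i, Q.x i = P.x (κ i) :=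
  ⟨{ x := fun i => P.x (κ i)
     n := fun i j => P.n (κ i) (κ j)
     p := fun i j => P.p (κ i) (κ j)
     A := fun i => P.A (κ i)
     disj := fun i j hij => P.disj _ _ (hκ.ne hij)
     xA := fun i => P.xA _
     st := fun i j hij => P.st _ _ (hκ.ne hij)
     en := fun i j hij => P.en _ _ (hκ.ne hij)
     ad := fun i j hij => P.ad _ _ (hκ.ne hij)
     pA := fun i j hij => P.pA _ _ (hκ.ne hij) }, fun _ => rfl⟩

end RootedKC
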