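import Mathlib

/-! Random shifts of the blocks. -/

namespace RootedKC

open Finset

private theorem shift_bad_card (g m L : ℕ) [NeZero m] (j : Fin g × ZMod m)
    (T : Finset (Fin g × ZMod m)) (hT : m * (L + 1) ≤ T.card) :
    (((univ : Finset (Fin g → ZMod m)).filter
      (fun r => ∀ h ∈ T, h.2 + r h.1 ≠ j.2 + r j.1)).card : ℝ) * 2 ^ L ≤ (m : ℝ) ^ g := by
  classical
  have hm : 0 < m := Nat.pos_of_ne_zero (NeZero.ne m)
  have hmR : (0 : ℝ) < m := by exact_mod_cast hm
  set B : Finset (Fin g → ZMod m) := (univ : Finset (Fin g → ZMod m)).filter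
      (fun r => ∀ h ∈ T, h.2 + r h.1 ≠ j.2 + r j.1) with hB
  set τ : Fin g → ℕ := fun s => (T.filter (fun h => h.1 = s)).card with hτ
  -- the fibres
  have himg : ∀ (ρ : ZMod m) (s : Fin g),
      ((T.filter (fun h => h.1 = s)).image (fun h => j.2 + ρ - h.2)).card = τ s := by
    intro ρ s
    refine Finset.card_image_of_injOn ?_
    intro a ha b hb hab
    have ha1 := (Finset.mem_filter.1 ha).2
    have hb1 := (Finset.mem_filter.1 hb).2
    refine Prod.ext (ha1.trans hb1.symm) ?_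
    exact sub_right_injective hab
  have hτm : ∀ s, τ s ≤ m := by
    intro s
    rw [← himg 0 s]
    refine (Finset.card_le_univ _).trans ?_
    rw [ZMod.card]
  have hfib : ∀ ρ : ZMod m, (B.filter (fun r => r j.1 = ρ)).card ≤
      ∏ s ∈ univ.erase j.1, (m - τ s) := by
    intro ρ
    have hsub : B.filter (fun r => r j.1 = ρ) ⊆ Fintype.piFinset (fun s => if s = j.1 then {ρ} else
        univ \ (T.filter (fun h => h.1 = s)).image (fun h => j.2 + ρ - h.2)) := by
      intro r hr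
      obtain ⟨hrB, hrρ⟩ := Finset.mem_filter.1 hr
      have hrB' := (Finset.mem_filter.1 hrB).2
      rw [Fintype.mem_piFinset]
      intro s
      by_cases hs : s = j.1
      · rw [if_pos hs, hs, Finset.mem_singleton]
        exact hrρ
      · rw [if_neg hs, Finset.mem_sdiff]
        refine ⟨Finset.mem_univ _, fun hmem => ?_⟩
        obtain ⟨h, hh, hhr⟩ := Finset.mem_image.1 hmem
        obtain ⟨hhT, hhs⟩ := Finset.mem_filter.1 hh
        apply hrB' h hhT
        rw [hhs, ← hhr, hrρ]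
        ring
    refine (Finset.card_le_card hsub).trans ?_
    rw [Fintype.card_piFinset, ← Finset.mul_prod_erase univ _ (Finset.mem_univ j.1), if_pos rfl,
      Finset.card_singleton, one_mul]
    refine le_of_eq (Finset.prod_congr rfl fun s hs => ?_)
    rw [if_neg (Finset.ne_of_mem_erase hs), Finset.card_sdiff_of_subset (Finset.subset_univ _),
      himg, Finset.card_univ, ZMod.card]
  have hcard : B.card ≤ m * ∏ s ∈ univ.erase j.1, (m - τ s) := by
    rw [Finset.card_eq_sum_card_fiberwise (f := fun r : Fin g → ZMod m => r j.1) (t := univ)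
      (fun _ _ => Finset.mem_coe.2 (Finset.mem_univ _))]
    refine (Finset.sum_le_card_nsmul _ _ _ fun ρ _ => hfib ρ).trans ?_
    rw [Finset.card_univ, ZMod.card, smul_eq_mul]
  -- the real bound
  have hprod : ((∏ s ∈ univ.erase j.1, (m - τ s) : ℕ) : ℝ) ≤
      (m : ℝ) ^ (g - 1) * Real.exp (-(∑ s ∈ univ.erase j.1, (τ s : ℝ)) / m) := by
    have h1 : (m : ℝ) ^ (g - 1) * Real.exp (-(∑ s ∈ univ.erase j.1, (τ s : ℝ)) / m) =
        ∏ s ∈ univ.erase j.1, ((m : ℝ) * Real.exp (-(τ s : ℝ) / m)) := by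
      rw [Finset.prod_mul_distrib, Finset.prod_const, Finset.card_erase_of_mem (Finset.mem_univ _),
        Finset.card_univ, Fintype.card_fin, ← Real.exp_sum, ← Finset.sum_div,
        Finset.sum_neg_distrib]
    rw [h1, Nat.cast_prod]
    refine Finset.prod_le_prod (fun s _ => Nat.cast_nonneg _) fun s _ => ?_
    rw [Nat.cast_sub (hτm s)]
    have h2 := Real.add_one_le_exp (-(τ s : ℝ) / m)
    have h3 : (m : ℝ) - τ s = m * (-(τ s : ℝ) / m + 1) := by
      field_simp
      ring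
    rw [h3]
    exact mul_le_mul_of_nonneg_left h2 hmR.le
  have hsum : (m : ℝ) * L ≤ ∑ s ∈ univ.erase j.1, (τ s : ℝ) := by
    have h1 : T.card = ∑ s, τ s := by
      exact Finset.card_eq_sum_card_fiberwise (f := fun h : Fin g × ZMod m => h.1) (t := univ)
        (fun _ _ => Finset.mem_coe.2 (Finset.mem_univ _))
    have h2 : T.card = τ j.1 + ∑ s ∈ univ.erase j.1, τ s := by
      rw [h1, Finset.add_sum_erase univ _ (Finset.mem_univ _)]
    have h3 := hτm j.1
    have h4 : m * L ≤ ∑ s ∈ univ.erase j.1, τ s := by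
      have : m * (L + 1) = m * L + m := by ring
      omega
    exact_mod_cast h4
  have hexp : Real.exp (-(∑ s ∈ univ.erase j.1, (τ s : ℝ)) / m) ≤ Real.exp (-(L : ℝ)) := by
    rw [Real.exp_le_exp, div_le_iff₀ hmR]
    linarith
  have hg : 0 < g := j.1.pos
  have h2L : (2 : ℝ) ^ L ≤ Real.exp L := by
    have h1 : (2 : ℝ) ≤ Real.exp 1 := by
      have := Real.add_one_le_exp (1 : ℝ)
      linarith
    have h2 : Real.exp L = Real.exp 1 ^ L := by
      rw [← Real.exp_nat_mul, mul_one]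
    rw [h2]
    exact pow_le_pow_left₀ (by norm_num) h1 L
  have hB1 : (B.card : ℝ) ≤ (m : ℝ) ^ g * Real.exp (-(L : ℝ)) := by
    calc (B.card : ℝ) ≤ m * ((∏ s ∈ univ.erase j.1, (m - τ s) : ℕ) : ℝ) := by exact_mod_cast hcard
      _ ≤ m * ((m : ℝ) ^ (g - 1) * Real.exp (-(L : ℝ))) := by
          refine mul_le_mul_of_nonneg_left (hprod.trans ?_) hmR.le
          exact mul_le_mul_of_nonneg_left hexp (by positivity)
      _ = (m : ℝ) ^ g * Real.exp (-(L : ℝ)) := by
          rw [← mul_assoc, ← pow_succ', Nat.sub_add_cancel hg]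
  calc (B.card : ℝ) * 2 ^ L ≤ ((m : ℝ) ^ g * Real.exp (-(L : ℝ))) * Real.exp L :=
        mul_le_mul hB1 h2L (by positivity) (by positivity)
    _ = (m : ℝ) ^ g := by
        rw [mul_assoc, ← Real.exp_add, neg_add_cancel, Real.exp_zero, mul_one]

theorem exists_shift (g m L : ℕ) [NeZero m] (hL : (g * m) ^ 2 < 2 ^ L)
    (T : Fin g × ZMod m → Fin g × ZMod m → Finset (Fin g × ZMod m))
    (hT : ∀ i j, i ≠ j → m * (L + 1) ≤ (T i j).card) :
    ∃ r : Fin g → ZMod m, ∀ i j, i ≠ j →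
      ∃ h ∈ T i j, h.2 + r h.1 = j.2 + r j.1 := by
  classical
  by_contra hcon
  push Not at hcon
  have hm : 0 < m := Nat.pos_of_ne_zero (NeZero.ne m)
  have hmR : (0 : ℝ) < m := by exact_mod_cast hm
  set B : (Fin g × ZMod m) × (Fin g × ZMod m) → Finset (Fin g → ZMod m) := fun x =>
    (univ : Finset (Fin g → ZMod m)).filter
      (fun r => ∀ h ∈ T x.1 x.2, h.2 + r h.1 ≠ x.2.2 + r x.2.1) with hB
  set D : Finset ((Fin g × ZMod m) × (Fin g × ZMod m)) := univ.filter (fun x => x.1 ≠ x.2) with hD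
  have hcov : (univ : Finset (Fin g → ZMod m)) ⊆ D.biUnion B := by
    intro r _
    obtain ⟨i, j, hij, h⟩ := hcon r
    refine Finset.mem_biUnion.2 ⟨(i, j), Finset.mem_filter.2 ⟨Finset.mem_univ _, hij⟩, ?_⟩
    exact Finset.mem_filter.2 ⟨Finset.mem_univ _, h⟩
  have h1 : m ^ g ≤ ∑ x ∈ D, (B x).card := by
    have := (Finset.card_le_card hcov).trans Finset.card_biUnion_le
    rwa [Finset.card_univ, Fintype.card_fun, ZMod.card, Fintype.card_fin] at this
  have h2 : ∀ x ∈ D, ((B x).card : ℝ) ≤ (m : ℝ) ^ g / 2 ^ L := by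
    intro x hx
    rw [le_div_iff₀ (by positivity)]
    exact shift_bad_card g m L x.2 (T x.1 x.2) (hT x.1 x.2 (Finset.mem_filter.1 hx).2)
  have h3 : ((∑ x ∈ D, (B x).card : ℕ) : ℝ) ≤ (D.card : ℝ) * ((m : ℝ) ^ g / 2 ^ L) := by
    rw [Nat.cast_sum]
    have := Finset.sum_le_card_nsmul D _ _ h2
    rwa [nsmul_eq_mul] at this
  have h4 : (D.card : ℝ) ≤ ((g * m) ^ 2 : ℕ) := by
    have h5 : D.card ≤ (g * m) ^ 2 := by
      refine (Finset.card_le_univ _).trans (le_of_eq ?_)
      rw [Fintype.card_prod, Fintype.card_prod, Fintype.card_fin, ZMod.card, sq]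
    exact_mod_cast h5
  have h5 : (((g * m) ^ 2 : ℕ) : ℝ) < 2 ^ L := by exact_mod_cast hL
  have h6 : (0 : ℝ) < (m : ℝ) ^ g / 2 ^ L := by positivity
  have h7 : (m : ℝ) ^ g ≤ (D.card : ℝ) * ((m : ℝ) ^ g / 2 ^ L) := by
    refine le_trans ?_ h3
    exact_mod_cast h1
  have h8 : (D.card : ℝ) * ((m : ℝ) ^ g / 2 ^ L) < 2 ^ L * ((m : ℝ) ^ g / 2 ^ L) :=
    mul_lt_mul_of_pos_right (h4.trans_lt h5) h6
  have h9 : (2 : ℝ) ^ L * ((m : ℝ) ^ g / 2 ^ L) = (m : ℝ) ^ g := by
    field_simp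
  linarith

end RootedKC
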