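import Mathlib

/-!
Independent transversals by counting (Rosenfeld).
-/

set_option autoImplicit false

namespace RootedKC

section

variable {K O : Type} [Fintype K] [DecidableEq K] [Fintype O] [DecidableEq O]
  (R : K × O → K × O → Prop) [DecidableRel R]

/-- the choices on `S` without conflict, constant outside `S` -/
private def trN (o0 : O) (S : Finset K) : Finset (K → O) :=
  Finset.univ.filter fun f => (∀ v, v ∉ S → f v = o0) ∧
    ∀ u ∈ S, ∀ w ∈ S, u ≠ w → ¬ R (u, f u) (w, f w)

variable {R}

private theorem mem_trN {o0 : O} {S : Finset K} {f : K → O} :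
    f ∈ trN R o0 S ↔ (∀ v, v ∉ S → f v = o0) ∧
      ∀ u ∈ S, ∀ w ∈ S, u ≠ w → ¬ R (u, f u) (w, f w) := by
  unfold trN
  rw [Finset.mem_filter]
  exact ⟨fun h => h.2, fun h => ⟨Finset.mem_univ _, h⟩⟩

/-- fixing the value at `u` -/
private theorem card_fix_le (o0 : O) (S : Finset K) (u : K) (p : O) :
    ((trN R o0 S).filter fun f => f u = p).card ≤ (trN R o0 (S.erase u)).card := by
  refine Finset.card_le_card_of_injOn (fun f => Function.update f u o0) ?_ ?_
  · intro f hf
    obtain ⟨hf1, -⟩ := Finset.mem_filter.1 (Finset.mem_coe.1 hf)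
    rw [mem_trN] at hf1
    rw [Finset.mem_coe, mem_trN]
    dsimp only
    constructor
    · intro v hv
      by_cases h : v = u
      · subst h
        rw [Function.update_self]
      · rw [Function.update_of_ne h]
        exact hf1.1 v fun h' => hv (Finset.mem_erase.2 ⟨h, h'⟩)
    · intro a ha b hb hab
      obtain ⟨ha1, ha2⟩ := Finset.mem_erase.1 ha
      obtain ⟨hb1, hb2⟩ := Finset.mem_erase.1 hb
      rw [Function.update_of_ne ha1, Function.update_of_ne hb1]
      exact hf1.2 a ha2 b hb2 hab
  · intro f hf g hg hfg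
    obtain ⟨-, hf2⟩ := Finset.mem_filter.1 (Finset.mem_coe.1 hf)
    obtain ⟨-, hg2⟩ := Finset.mem_filter.1 (Finset.mem_coe.1 hg)
    dsimp only at hfg
    funext v
    by_cases h : v = u
    · rw [h, hf2, hg2]
    · have := congrFun hfg v
      rwa [Function.update_of_ne h, Function.update_of_ne h] at this

variable (R) in
/-- the number of bad extensions -/
private theorem card_bad_le (o0 : O) (S : Finset K) (v : K) (Δ : ℕ)
    (hΔ : ∀ y, (Finset.univ.filter (fun z => R y z)).card ≤ Δ)
    (ih : ∀ u ∈ S, Fintype.card O * (trN R o0 (S.erase u)).card ≤ 2 * (trN R o0 S).card) :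
    Fintype.card O * ((trN R o0 S ×ˢ (Finset.univ : Finset O)).filter fun x =>
      ∃ u ∈ S, R (v, x.2) (u, x.1 u)).card ≤
      Fintype.card O * (Δ * (2 * (trN R o0 S).card)) := by
  have h1 : ((trN R o0 S ×ˢ (Finset.univ : Finset O)).filter fun x =>
      ∃ u ∈ S, R (v, x.2) (u, x.1 u)) ⊆
      (Finset.univ : Finset O).biUnion fun o =>
        (Finset.univ.filter fun z : K × O => R (v, o) z ∧ z.1 ∈ S).biUnion fun z =>
          ((trN R o0 S).filter fun f => f z.1 = z.2).image fun f => (f, o) := by
    rintro ⟨f, o⟩ hx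
    obtain ⟨h2, u, hu, h3⟩ := Finset.mem_filter.1 hx
    rw [Finset.mem_product] at h2
    rw [Finset.mem_biUnion]
    refine ⟨o, Finset.mem_univ _, ?_⟩
    rw [Finset.mem_biUnion]
    refine ⟨(u, f u), Finset.mem_filter.2 ⟨Finset.mem_univ _, h3, hu⟩, ?_⟩
    rw [Finset.mem_image]
    exact ⟨f, Finset.mem_filter.2 ⟨h2.1, rfl⟩, rfl⟩
  have h2 : ((trN R o0 S ×ˢ (Finset.univ : Finset O)).filter fun x =>
      ∃ u ∈ S, R (v, x.2) (u, x.1 u)).card ≤
      ∑ o : O, ∑ z ∈ Finset.univ.filter (fun z : K × O => R (v, o) z ∧ z.1 ∈ S),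
        (trN R o0 (S.erase z.1)).card := by
    refine (Finset.card_le_card h1).trans (Finset.card_biUnion_le.trans ?_)
    refine Finset.sum_le_sum fun o _ => Finset.card_biUnion_le.trans ?_
    refine Finset.sum_le_sum fun z _ => Finset.card_image_le.trans ?_
    exact card_fix_le o0 S z.1 z.2
  calc Fintype.card O * _ ≤ Fintype.card O *
        ∑ o : O, ∑ z ∈ Finset.univ.filter (fun z : K × O => R (v, o) z ∧ z.1 ∈ S),
          (trN R o0 (S.erase z.1)).card := Nat.mul_le_mul_left _ h2
    _ = ∑ o : O, ∑ z ∈ Finset.univ.filter (fun z : K × O => R (v, o) z ∧ z.1 ∈ S),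
          Fintype.card O * (trN R o0 (S.erase z.1)).card := by
        rw [Finset.mul_sum]
        refine Finset.sum_congr rfl fun o _ => ?_
        rw [Finset.mul_sum]
    _ ≤ ∑ o : O, ∑ _z ∈ Finset.univ.filter (fun z : K × O => R (v, o) z ∧ z.1 ∈ S),
          2 * (trN R o0 S).card := by
        refine Finset.sum_le_sum fun o _ => Finset.sum_le_sum fun z hz => ?_
        exact ih z.1 (Finset.mem_filter.1 hz).2.2
    _ ≤ ∑ _o : O, Δ * (2 * (trN R o0 S).card) := by
        refine Finset.sum_le_sum fun o _ => ?_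
        rw [Finset.sum_const, smul_eq_mul]
        refine Nat.mul_le_mul_right _ (le_trans (Finset.card_le_card ?_) (hΔ (v, o)))
        intro z hz
        exact Finset.mem_filter.2 ⟨Finset.mem_univ _, (Finset.mem_filter.1 hz).2.1⟩
    _ = _ := by rw [Finset.sum_const, Finset.card_univ, smul_eq_mul]

/-- the good extensions -/
private theorem card_good_le (hsymm : ∀ y z, R y z → R z y) (o0 : O) (S : Finset K) (v : K)
    (hv : v ∉ S) :
    ((trN R o0 S ×ˢ (Finset.univ : Finset O)).filter fun x =>
      ¬ ∃ u ∈ S, R (v, x.2) (u, x.1 u)).card ≤ (trN R o0 (insert v S)).card := by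
  refine Finset.card_le_card_of_injOn (fun x => Function.update x.1 v x.2) ?_ ?_
  · rintro ⟨f, o⟩ hx
    obtain ⟨h2, h3⟩ := Finset.mem_filter.1 (Finset.mem_coe.1 hx)
    rw [Finset.mem_product, mem_trN] at h2
    obtain ⟨⟨h4, h5⟩, -⟩ := h2
    push Not at h3
    rw [Finset.mem_coe, mem_trN]
    dsimp only at h3 h4 h5 ⊢
    have hne : ∀ u ∈ S, u ≠ v := fun u hu h => hv (h ▸ hu)
    constructor
    · intro a ha
      rw [Finset.mem_insert, not_or] at ha
      rw [Function.update_of_ne ha.1]
      exact h4 a ha.2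
    · intro a ha b hb hab
      rcases Finset.mem_insert.1 ha with rfl | ha'
      · rcases Finset.mem_insert.1 hb with rfl | hb'
        · exact absurd rfl hab
        · rw [Function.update_self, Function.update_of_ne (hne b hb')]
          exact h3 b hb'
      · rcases Finset.mem_insert.1 hb with rfl | hb'
        · rw [Function.update_self, Function.update_of_ne (hne a ha')]
          exact fun h => h3 a ha' (hsymm _ _ h)
        · rw [Function.update_of_ne (hne a ha'), Function.update_of_ne (hne b hb')]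
          exact h5 a ha' b hb' hab
  · rintro ⟨f, o⟩ hx ⟨g, o'⟩ hy hxy
    obtain ⟨h2, -⟩ := Finset.mem_filter.1 (Finset.mem_coe.1 hx)
    obtain ⟨h3, -⟩ := Finset.mem_filter.1 (Finset.mem_coe.1 hy)
    rw [Finset.mem_product, mem_trN] at h2 h3
    dsimp only at hxy h2 h3
    have ho : o = o' := by
      have := congrFun hxy v
      rwa [Function.update_self, Function.update_self] at this
    have hf : f = g := by
      funext a
      by_cases h : a = v
      · rw [h, h2.1.1 v hv, h3.1.1 v hv]
      · have := congrFun hxy a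
        rwa [Function.update_of_ne h, Function.update_of_ne h] at this
    rw [ho, hf]

variable (R) in
private theorem step_le (hsymm : ∀ y z, R y z → R z y) (o0 : O) (Δ : ℕ)
    (hΔ : ∀ y, (Finset.univ.filter (fun z => R y z)).card ≤ Δ)
    (hO : 4 * Δ ≤ Fintype.card O) (hpos : 0 < Fintype.card O) :
    ∀ (k : ℕ) (S : Finset K), S.card = k → ∀ v, v ∉ S →
      Fintype.card O * (trN R o0 S).card ≤ 2 * (trN R o0 (insert v S)).card := by
  intro k
  induction k using Nat.strong_induction_on with
  | _ k ihk =>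
    intro S hS v hv
    have ih : ∀ u ∈ S, Fintype.card O * (trN R o0 (S.erase u)).card ≤ 2 * (trN R o0 S).card := by
      intro u hu
      have hlt : (S.erase u).card < k := by
        rw [← hS]
        exact Finset.card_erase_lt_of_mem hu
      have := ihk _ hlt (S.erase u) rfl u (Finset.notMem_erase u S)
      rwa [Finset.insert_erase hu] at this
    have hbad := card_bad_le R o0 S v Δ hΔ ih
    have hbad2 := Nat.le_of_mul_le_mul_left hbad hpos
    have hgood := card_good_le hsymm o0 S v hv
    have hsplit := Finset.card_filter_add_card_filter_not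
      (s := trN R o0 S ×ˢ (Finset.univ : Finset O)) (fun x => ∃ u ∈ S, R (v, x.2) (u, x.1 u))
    rw [Finset.card_product, Finset.card_univ] at hsplit
    have h1 : Δ * (2 * (trN R o0 S).card) * 2 ≤ Fintype.card O * (trN R o0 S).card := by
      calc Δ * (2 * (trN R o0 S).card) * 2 = (4 * Δ) * (trN R o0 S).card := by ring
        _ ≤ _ := Nat.mul_le_mul_right _ hO
    rw [mul_comm (trN R o0 S).card (Fintype.card O)] at hsplit
    omega

end

theorem exists_transversal {K O : Type} [Fintype K] [DecidableEq K] [Fintype O]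
    [DecidableEq O] (R : K × O → K × O → Prop) [DecidableRel R] (hsymm : ∀ y z, R y z → R z y)
    (Δ : ℕ) (hΔ : ∀ y, (Finset.univ.filter (fun z => R y z)).card ≤ Δ)
    (hO : 4 * Δ ≤ Fintype.card O) (hpos : 0 < Fintype.card O) :
    ∃ f : K → O, ∀ u w, u ≠ w → ¬ R (u, f u) (w, f w) := by
  obtain ⟨o0⟩ := Fintype.card_pos_iff.1 hpos
  have hcard : ∀ S : Finset K, 0 < (trN R o0 S).card := by
    intro S
    induction S using Finset.induction_on with
    | empty =>
      refine Finset.card_pos.2 ⟨fun _ => o0, mem_trN.2 ⟨fun _ _ => rfl, ?_⟩⟩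
      intro u hu
      exact absurd hu (Finset.notMem_empty u)
    | insert v S hv ih =>
      have h1 := step_le R hsymm o0 Δ hΔ hO hpos S.card S rfl v hv
      have h2 := Nat.mul_pos hpos ih
      omega
  obtain ⟨f, hf⟩ := Finset.card_pos.1 (hcard Finset.univ)
  exact ⟨f, fun u w h => (mem_trN.1 hf).2 u (Finset.mem_univ u) w (Finset.mem_univ w) h⟩

end RootedKC
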