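import Pool.Agent.Lib.MP_09e206_co.Kempe
import Pool.Agent.Lib.MP_09e206_co.Assemble
import Pool.Agent.Lib.MP_09e206_co.Shift
import Pool.Agent.Lib.MP_09e206_co.Transversal
import Pool.Agent.Lib.MP_09e206_co.Cross

/-! # Rooted clique minors from Kempe chains: the main combinatorial theorem -/

namespace RootedKC

open Finset

theorem rooted_of_params {V : Type} {G : SimpleGraph V} (g m L : ℕ) [NeZero m]
    (P : PS G (Fin g × ZMod m)) (hL : (g * m) ^ 2 < 2 ^ L)
    (hg : 4 * (m * (L + 1)) ≤ g * g) (hgm : m * (L + 1) + 2 ≤ g * m) :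
    HasRootedModel G (Set.range P.x) (⊤ : SimpleGraph (Fin m)) := by
  classical
  have hm : 0 < m := Nat.pos_of_ne_zero (NeZero.ne m)
  have ht : 1 ≤ m * (L + 1) := Nat.mul_pos hm (Nat.succ_pos L)
  have hg0 : 0 < g := by
    rcases Nat.eq_zero_or_pos g with h | h
    · subst h; omega
    · exact h
  have hcardI : Fintype.card (Fin g × ZMod m) = g * m := by
    rw [Fintype.card_prod, Fintype.card_fin, ZMod.card]
  have hex : ∀ i j : Fin g × ZMod m, ∃ T : Finset (Fin g × ZMod m), i ≠ j →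
      (m * (L + 1) ≤ T.card ∧ i ∉ T ∧ j ∉ T ∧
      ∀ (m' : ℕ) (grp : Fin g × ZMod m → Fin m'), (∃ h ∈ T, grp h = grp j) →
        ∃ U : Finset (Fin g × ZMod m), U.card < m * (L + 1) ∧
          ∀ l, l ≠ i → l ≠ j → (∃ s u, Pre P (F P grp (grp j)) i j s ∧ u ≤ P.n l j ∧
            P.p i j s = P.p l j u) → l ∈ U) := by
    intro i j
    by_cases hij : i = j
    · exact ⟨∅, fun h => absurd hij h⟩
    · obtain ⟨T, hT⟩ := exists_first P i j hij (m * (L + 1)) ht (by rw [hcardI]; exact hgm)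
      exact ⟨T, fun _ => hT⟩
  choose T hT using hex
  obtain ⟨r, hr⟩ := exists_shift g m L hL T (fun i j hij => (hT i j hij).1)
  let e : ZMod m ≃ Fin m := Fintype.equivFinOfCardEq (ZMod.card m)
  let grp : Fin g × ZMod m → Fin m := fun h => e (h.2 + r h.1)
  let idx : Fin g → Fin m → Fin g × ZMod m := fun α a => (α, e.symm a - r α)
  have hidx : ∀ α a, grp (idx α a) = a := by
    intro α a
    simp [grp, idx]
  have hidx1 : ∀ α a, (idx α a).1 = α := fun α a => rfl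
  have hidx_inj : ∀ α a β b, idx α a = idx β b → α = β ∧ a = b := by
    intro α a β b h
    have h1 : α = β := congrArg Prod.fst h
    refine ⟨h1, ?_⟩
    rw [← hidx α a, ← hidx β b, h]
  let R : (Fin m × Fin m) × (Fin g × Fin g) → (Fin m × Fin m) × (Fin g × Fin g) → Prop :=
    fun y z => y.1.2 = z.1.2 ∧ y.1.1 ≠ z.1.1 ∧ y.1.1 < y.1.2 ∧ z.1.1 < z.1.2 ∧
      y.2.2 = z.2.2 ∧ ∃ s u, Pre P (F P grp y.1.2) (idx y.2.1 y.1.1) (idx y.2.2 y.1.2) s ∧
        Pre P (F P grp z.1.2) (idx z.2.1 z.1.1) (idx z.2.2 z.1.2) u ∧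
        P.p (idx y.2.1 y.1.1) (idx y.2.2 y.1.2) s = P.p (idx z.2.1 z.1.1) (idx z.2.2 z.1.2) u
  have hsymm : ∀ y z, R y z → R z y := by
    rintro y z ⟨h1, h2, h3, h4, h5, s, u, h6, h7, h8⟩
    exact ⟨h1.symm, h2.symm, h4, h3, h5.symm, u, s, h7, h6, h8.symm⟩
  have hdeg : ∀ y, (Finset.univ.filter (fun z => R y z)).card ≤ m * (L + 1) := by
    rintro ⟨⟨a, b⟩, ⟨α, β⟩⟩
    by_cases hab : a < b
    · have hij : idx α a ≠ idx β b := by
        intro h
        exact hab.ne (hidx_inj _ _ _ _ h).2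
      obtain ⟨h, hhT, hh⟩ := hr _ _ hij
      obtain ⟨U, hU, hU2⟩ := (hT _ _ hij).2.2.2 m grp ⟨h, hhT, by
        show e _ = e _
        rw [hh]⟩
      refine le_trans ?_ hU.le
      refine Finset.card_le_card_of_injOn (fun z => idx z.2.1 z.1.1) ?_ ?_
      · rintro ⟨⟨c, d⟩, ⟨γ, δ⟩⟩ hz
        have hz' : R ((a, b), (α, β)) ((c, d), (γ, δ)) := by
          have := Finset.mem_coe.1 hz
          exact (Finset.mem_filter.1 this).2
        obtain ⟨h1, h2, h3, h4, h5, s, u, h6, h7, h8⟩ := hz'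
        simp only at h1 h2 h3 h4 h5 h6 h7 h8
        subst h1 h5
        refine Finset.mem_coe.2 (hU2 _ ?_ ?_ ⟨s, u, ?_, h7.1, h8⟩)
        · intro hE
          exact h2 (hidx_inj _ _ _ _ hE).2.symm
        · intro hE
          exact h4.ne (hidx_inj _ _ _ _ hE).2
        · rw [hidx]; exact h6
      · rintro ⟨⟨c, d⟩, ⟨γ, δ⟩⟩ hz ⟨⟨c', d'⟩, ⟨γ', δ'⟩⟩ hz' hE
        have hz1 : R ((a, b), (α, β)) ((c, d), (γ, δ)) :=
          (Finset.mem_filter.1 (Finset.mem_coe.1 hz)).2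
        have hz2 : R ((a, b), (α, β)) ((c', d'), (γ', δ')) :=
          (Finset.mem_filter.1 (Finset.mem_coe.1 hz')).2
        have e1 : b = d := hz1.1
        have e2 : b = d' := hz2.1
        have e3 : β = δ := hz1.2.2.2.2.1
        have e4 : β = δ' := hz2.2.2.2.2.1
        obtain ⟨e5, e6⟩ := hidx_inj _ _ _ _ hE
        simp only at e5 e6
        subst e1 e2 e3 e4 e5 e6
        rfl
    · have : (Finset.univ.filter (fun z => R ((a, b), (α, β)) z)) = ∅ := by
        refine Finset.filter_eq_empty_iff.2 ?_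
        intro z _ hz
        exact hab hz.2.2.1
      rw [this]
      simp
  obtain ⟨f, hf⟩ := exists_transversal R hsymm (m * (L + 1)) hdeg
    (by rw [Fintype.card_prod, Fintype.card_fin]; exact hg)
    (by rw [Fintype.card_prod, Fintype.card_fin]; exact Nat.mul_pos hg0 hg0)
  refine assemble P grp (fun a => ⟨idx ⟨0, hg0⟩ a, hidx _ _⟩)
    (fun a b => idx (f (a, b)).1 a) (fun a b => idx (f (a, b)).2 b)
    (fun a b _ => hidx _ _) (fun a b _ => hidx _ _) ?_
  intro a c b hab hcb hac hE s t hs ht' hp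
  have hne : ((a, b) : Fin m × Fin m) ≠ (c, b) := by
    intro h
    exact hac (congrArg Prod.fst h)
  exact hf _ _ hne ⟨rfl, hac, hab, hcb, (hidx_inj _ _ _ _ hE).1, s, t, hs, ht', hp⟩

end RootedKC
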