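import Pool.Agent.Lib.MP_09e206_co.Defs

/-! # Clique models and the Holroyd property: shared definitions -/

namespace RootedKC

/-- `B` is a model of the complete graph of order `m` -/
def Model {V : Type} (G : SimpleGraph V) {m : ℕ} (B : Fin m → Set V) : Prop :=
  (∀ i, (G.induce (B i)).Connected) ∧ (∀ i j, i ≠ j → Disjoint (B i) (B j)) ∧
  (∀ i j, i ≠ j → ∃ u ∈ B i, ∃ v ∈ B j, G.Adj u v)

/-- there is a model of the complete graph of order `t` -/
def HasK {V : Type} (G : SimpleGraph V) (t : ℕ) : Prop := ∃ B : Fin t → Set V, Model G B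

/-- there is an `X`-rooted model of the complete graph of order `m` -/
def HasRootedK {V : Type} (G : SimpleGraph V) (X : Set V) (m : ℕ) : Prop :=
  ∃ B : Fin m → Set V, Model G B ∧ ∀ i, (B i ∩ X).Nonempty

/-- Holroyd property: `G` is `k`-colourable and every proper `k`-colouring uses all the
colours on `X` -/
def Forces {V : Type} (G : SimpleGraph V) (X : Set V) (k : ℕ) : Prop :=
  (∃ φ : V → Fin k, Proper G φ) ∧
  ∀ φ : V → Fin k, Proper G φ → ∀ a : Fin k, ∃ x ∈ X, φ x = a

theorem hasRootedModel_of_hasRootedK {V : Type} {G : SimpleGraph V} {X : Set V} {m : ℕ}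
    (h : HasRootedK G X m) : HasRootedModel G X (⊤ : SimpleGraph (Fin m)) := by
  obtain ⟨B, ⟨h1, h2, h3⟩, h4⟩ := h
  exact ⟨B, h1, h2, fun w w' hw => h3 w w' hw.ne, h4⟩

theorem forces_of_realizes {V : Type} {k : ℕ} (G : SimpleGraph V) (ι : Fin k ↪ V)
    (h : Realizes G ι {f : Fin k → Fin k | Function.Bijective f}) :
    Forces G (Set.range ι) k := by
  constructor
  · obtain ⟨φ, hφ, -⟩ := (h id).1 Function.bijective_id
    exact ⟨φ, hφ⟩
  · intro φ hφ a
    have hb : (fun x => φ (ι x)) ∈ {f : Fin k → Fin k | Function.Bijective f} :=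
      (h _).2 ⟨φ, hφ, fun _ => rfl⟩
    obtain ⟨x, hx⟩ := hb.2 a
    exact ⟨ι x, ⟨x, rfl⟩, hx⟩

end RootedKC
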