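import Pool.Agent.Lib.MP_09e206_co.L.P11
import Pool.Agent.Lib.MP_09e206_co.K.Q7
import Pool.Agent.Lib.MP_09e206_co.Model

namespace Pool.Agent.Lib.MP_09e206_co

open Pool.Agent.Lib.MP_4332cb_co

/-- the general form: Holroyd property implies large rooted complete minors -/
theorem rootedKT : ∃ c : ℝ, 0 < c ∧ ∀ k : ℕ, 2 ≤ k → ∀ (W : Type) [Fintype W] (G : SimpleGraph W)
    (X : Set W), PK k G X → ∀ m : ℕ, (m : ℝ) ≤ c * k / Real.sqrt (Real.log k) → RK G X m := by
  obtain ⟨c, hc, h⟩ := KT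
  refine ⟨c / 2, by positivity, ?_⟩
  intro k hk W _ G X hPK m hm
  rcases Nat.eq_zero_or_pos m with h0 | h0
  · subst h0
    exact ⟨fun i => i.elim0, fun i => i.elim0, fun i => i.elim0, fun i => i.elim0,
      fun i => i.elim0⟩
  · have h2m : ((2 * m : ℕ) : ℝ) ≤ c * k / Real.sqrt (Real.log k) := by
      have : c / 2 * k / Real.sqrt (Real.log k) = (c * k / Real.sqrt (Real.log k)) / 2 := by ring
      rw [this] at hm
      push_cast
      linarith
    exact thmA k (2 * m) m le_rfl h0 (fun W' _ G' hG' => h k hk W' G' hG' (2 * m) h2m)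
      (Fintype.card W) W G X rfl (by omega) hPK

/-- the form of the question -/
theorem mainKT : ∃ c : ℝ, 0 < c ∧ ∀ k : ℕ, 2 ≤ k → ∀ (V : Type) [Finite V] (G : SimpleGraph V)
    (ι : Fin k ↪ V), RootedKC.Realizes G ι {f : Fin k → Fin k | Function.Bijective f} →
    ∀ m : ℕ, (m : ℝ) ≤ c * k / Real.sqrt (Real.log k) →
      RootedKC.HasRootedModel G (Set.range ι) (⊤ : SimpleGraph (Fin m)) := by
  obtain ⟨c, hc, h⟩ := rootedKT
  refine ⟨c, hc, ?_⟩
  intro k hk V _ G ι hreal m hm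
  haveI : Fintype V := Fintype.ofFinite V
  have hF := RootedKC.forces_of_realizes G ι hreal
  have hPK : PK k G (Set.range ι) := by
    obtain ⟨⟨φ, hφ⟩, h2⟩ := hF
    refine ⟨⟨SimpleGraph.Coloring.mk φ (fun {u v} huv => hφ u v huv)⟩, ?_⟩
    intro g j
    exact h2 (fun v => g v) (fun u v huv => g.valid huv) j
  obtain ⟨f, f1, f2, f3, f4⟩ := h k hk V G _ hPK m hm
  exact ⟨f, fun i => (Cn_iff G _).1 (f1 i), f2, fun i j hij => f3 i j hij.ne, f4⟩

end Pool.Agent.Lib.MP_09e206_co
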