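import Pool.Agent.Lib.MP_09e206_co.Asym

/-! # Rooted clique minors from Kempe chains: the explicit quadratic bound -/

namespace RootedKC

theorem card_sigma_max (m : ℕ) (hm : 0 < m) :
    Fintype.card (Σ b : Fin m, Fin (max 1 (b : ℕ))) = 1 + m * (m - 1) / 2 := by
  rw [Fintype.card_sigma]
  simp only [Fintype.card_fin]
  rw [Fin.sum_univ_eq_sum_range (fun b => max 1 b) m]
  obtain ⟨n, rfl⟩ : ∃ n, m = n + 1 := ⟨m - 1, by omega⟩
  have h1 : ∀ n : ℕ, ∑ i ∈ Finset.range (n + 1), max 1 i =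
      1 + ∑ i ∈ Finset.range (n + 1), i := by
    intro n
    induction n with
    | zero => simp
    | succ n ih =>
      rw [Finset.sum_range_succ, ih, Finset.sum_range_succ (fun i => i) (n + 1)]
      have : max 1 (n + 1) = n + 1 := by omega
      rw [this]
      ring
  rw [h1, Finset.sum_range_id]

theorem rooted_quad {V : Type} {G : SimpleGraph V} (k m : ℕ) (P : PS G (Fin k))
    (h : 1 + m * (m - 1) / 2 ≤ k) :
    HasRootedModel G (Set.range P.x) (⊤ : SimpleGraph (Fin m)) := by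
  rcases Nat.eq_zero_or_pos m with h0 | hm
  · subst h0
    exact ⟨fun w => w.elim0, fun w => w.elim0, fun w => w.elim0, fun w => w.elim0,
      fun w => w.elim0⟩
  have hcard : Fintype.card (Σ b : Fin m, Fin (max 1 (b : ℕ))) ≤ Fintype.card (Fin k) := by
    rw [card_sigma_max m hm, Fintype.card_fin]
    exact h
  obtain ⟨κ⟩ := Function.Embedding.nonempty_of_card_le hcard
  obtain ⟨Q, hQ⟩ := PS.restrict P κ κ.injective
  have hsub : Set.range Q.x ⊆ Set.range P.x := by
    rintro _ ⟨i, rfl⟩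
    exact ⟨κ i, (hQ i).symm⟩
  refine HasRootedModel.mono hsub ?_
  refine assemble Q (fun i => i.1) (fun a => ⟨⟨a, ⟨0, by omega⟩⟩, rfl⟩)
    (fun a _ => ⟨a, ⟨0, by omega⟩⟩)
    (fun a b => if h : (a : ℕ) < b then ⟨b, ⟨a, by omega⟩⟩ else ⟨b, ⟨0, by omega⟩⟩)
    (fun a b _ => rfl) ?_ ?_
  · intro a b hab
    have h1 : (a : ℕ) < b := hab
    simp only [h1, dite_true]
  · intro a c b hab hcb hac hE
    exfalso
    have h1 : (a : ℕ) < b := hab
    have h2 : (c : ℕ) < b := hcb
    simp only [h1, h2, dite_true, Sigma.mk.injEq, heq_eq_eq, true_and, Fin.mk.injEq] at hE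
    exact hac (Fin.ext hE)

end RootedKC
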