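import Pool.Agent.Lib.MP_09e206_co.Kempe

/-! # Kempe-rigid sets of colourings -/

namespace RootedKC

/-- the set `C` of `k`-colourings of `X` is Kempe-rigid: it has a member `f` and points `x i`
of colour `i` such that exchanging the colours `i` and `j` of `f` on a set which contains
`x i` but not `x j` always leads out of `C` -/
def KempeRigid {X : Type} {k : ℕ} (C : Set (X → Fin k)) : Prop :=
  ∃ f ∈ C, ∃ x : Fin k → X, (∀ i, f (x i) = i) ∧
    ∀ (i j : Fin k) (S : Set X), i ≠ j → x i ∈ S → x j ∉ S →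
      ∀ f' : X → Fin k, (∀ z ∈ S, f' z = Equiv.swap i j (f z)) → (∀ z ∉ S, f' z = f z) →
        f' ∉ C

theorem exists_PS_rigid {X V : Type} {k : ℕ} (G : SimpleGraph V) (ι' : X ↪ V)
    (C : Set (X → Fin k)) (h : Realizes G ι' C) (hC : KempeRigid C) :
    ∃ P : PS G (Fin k), ∀ i, P.x i ∈ Set.range ι' := by
  classical
  obtain ⟨f, hfC, x, hx, hrig⟩ := hC
  obtain ⟨φ, hφ, hφf⟩ := (h f).1 hfC
  set ι : Fin k → V := fun i => ι' (x i) with hι
  have hφι : ∀ i, φ (ι i) = i := fun i => by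
    rw [hι]
    show φ (ι' (x i)) = i
    rw [hφf, hx]
  suffices hs : ∃ P : PS G (Fin k), ∀ i, P.x i = ι i by
    obtain ⟨P, hP⟩ := hs
    exact ⟨P, fun i => ⟨x i, (hP i).symm⟩⟩
  refine exists_PS' G ι φ hφ hφι ?_
  intro i j hij
  by_contra hno
  obtain ⟨S, hS⟩ : ∃ S : Set V, ∀ v, v ∈ S ↔ ∃ (n : ℕ) (p : ℕ → V), p 0 = ι i ∧ p n = v ∧
      (∀ s < n, G.Adj (p s) (p (s + 1))) ∧ ∀ s ≤ n, φ (p s) = i ∨ φ (p s) = j :=
    ⟨{v | ∃ (n : ℕ) (p : ℕ → V), p 0 = ι i ∧ p n = v ∧
      (∀ s < n, G.Adj (p s) (p (s + 1))) ∧ ∀ s ≤ n, φ (p s) = i ∨ φ (p s) = j}, fun v => Iff.rfl⟩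
  have hjS : ι j ∉ S := fun hj => hno ((hS _).1 hj)
  have hiS : ι i ∈ S := (hS _).2 ⟨0, fun _ => ι i, rfl, rfl,
    fun s hs => absurd hs (Nat.not_lt_zero s), fun s _ => Or.inl (hφι i)⟩
  -- closure of `S`
  have hclos : ∀ u v, u ∈ S → G.Adj u v → (φ v = i ∨ φ v = j) → v ∈ S := by
    intro u v hu huv hv
    obtain ⟨n, p, hp0, hpn, had, hcol⟩ := (hS _).1 hu
    refine (hS _).2 ⟨n + 1, fun s => if s ≤ n then p s else v, ?_, ?_, ?_, ?_⟩
    · beta_reduce
      rw [if_pos (Nat.zero_le n)]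
      exact hp0
    · beta_reduce
      rw [if_neg (by omega)]
    · intro s hs
      beta_reduce
      rw [if_pos (show s ≤ n by omega)]
      rcases Nat.lt_or_ge s n with h1 | h1
      · rw [if_pos (show s + 1 ≤ n from h1)]
        exact had s h1
      · have h2 : s = n := by omega
        rw [if_neg (by omega), h2, hpn]
        exact huv
    · intro s hs
      beta_reduce
      split_ifs with h1
      · exact hcol s h1
      · exact hv
  have hScol : ∀ u ∈ S, φ u = i ∨ φ u = j := by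
    intro u hu
    obtain ⟨n, p, -, hpn, -, hcol⟩ := (hS _).1 hu
    rw [← hpn]
    exact hcol n le_rfl
  -- the Kempe switch
  obtain ⟨ψ, hψ⟩ : ∃ ψ : V → Fin k, ∀ v, ψ v = if v ∈ S then Equiv.swap i j (φ v) else φ v :=
    ⟨fun v => if v ∈ S then Equiv.swap i j (φ v) else φ v, fun v => rfl⟩
  have hmix : ∀ u v, G.Adj u v → u ∈ S → v ∉ S → ψ u ≠ ψ v := by
    intro u v huv hu hv
    have h1 : ¬ (φ v = i ∨ φ v = j) := fun h1 => hv (hclos u v hu huv h1)
    rw [hψ u, hψ v, if_pos hu, if_neg hv]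
    intro h2
    apply h1
    rcases hScol u hu with h3 | h3
    · rw [h3, Equiv.swap_apply_left] at h2
      exact Or.inr h2.symm
    · rw [h3, Equiv.swap_apply_right] at h2
      exact Or.inl h2.symm
  have hψp : Proper G ψ := by
    intro u v huv
    by_cases hu : u ∈ S
    · by_cases hv : v ∈ S
      · rw [hψ u, hψ v, if_pos hu, if_pos hv]
        exact fun h1 => hφ u v huv ((Equiv.swap i j).injective h1)
      · exact hmix u v huv hu hv
    · by_cases hv : v ∈ S
      · exact (hmix v u huv.symm hv hu).symm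
      · rw [hψ u, hψ v, if_neg hu, if_neg hv]
        exact hφ u v huv
  have hmem : (fun z => ψ (ι' z)) ∈ C := (h (fun z => ψ (ι' z))).2 ⟨ψ, hψp, fun _ => rfl⟩
  refine hrig i j {z | ι' z ∈ S} hij hiS hjS (fun z => ψ (ι' z)) ?_ ?_ hmem
  · intro z hz
    show ψ (ι' z) = _
    rw [hψ, if_pos (show ι' z ∈ S from hz), hφf]
  · intro z hz
    show ψ (ι' z) = _
    rw [hψ, if_neg (show ι' z ∉ S from hz), hφf]

theorem rigid_bijections (k : ℕ) :
    KempeRigid {f : Fin k → Fin k | Function.Bijective f} := by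
  classical
  refine ⟨id, Function.bijective_id, id, fun _ => rfl, ?_⟩
  intro i j S hij hi hj f' h1 h2 hf'
  apply hij
  apply (show Function.Bijective f' from hf').injective
  rw [h1 i hi, h2 j hj]
  exact Equiv.swap_apply_left i j

end RootedKC
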